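import Pool.Agent.KS6_65.QC.Defs
import Pool.Agent.KS6_65.SL.Perm

/-!
# Colourings of closed braids: invariance under the moves of Markov
-/

set_option autoImplicit false
set_option linter.unusedSectionVars false

namespace Pool.Agent.KS6_65.QC

open Pool.Agent.KS6_65.SL
open scoped Quandles

variable (X : Type*) [Quandle X]

theorem act_sig (i : ℕ) : act X (sig i) = cross X i := by
  simp [act, sig]

theorem act_sig_apply (i : ℕ) (v : ℕ → X) : act X (sig i) v = crossFun i v := by
  rw [act_sig]; rfl

theorem act_inv_apply (i : ℕ) (v : ℕ → X) : act X (sig i)⁻¹ v = crossInv i v := by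
  rw [map_inv, act_sig]; rfl

theorem act_mul (a b : Braid) (v : ℕ → X) : act X (a * b) v = act X a (act X b v) := by
  rw [map_mul]; rfl

theorem act_one (v : ℕ → X) : act X 1 v = v := by
  rw [map_one]; rfl

theorem act_inv_act (b : Braid) (v : ℕ → X) : act X b⁻¹ (act X b v) = v := by
  rw [← act_mul, inv_mul_cancel, act_one]

theorem act_act_inv (b : Braid) (v : ℕ → X) : act X b (act X b⁻¹ v) = v := by
  rw [← act_mul, mul_inv_cancel, act_one]

/-- Induction over the braids with `M` strands. -/
theorem strands_induction {M : ℕ} {P : Braid → Prop} (h1 : P 1)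
    (hs : ∀ i, i + 1 < M → P (sig i)) (hs' : ∀ i, i + 1 < M → P (sig i)⁻¹)
    (hm : ∀ a b, P a → P b → P (a * b)) {b : Braid} (hb : b ∈ strands M) : P b := by
  let H : Subgroup Braid :=
    { carrier := {b | P b ∧ P b⁻¹}
      one_mem' := ⟨h1, by rw [inv_one]; exact h1⟩
      mul_mem' := by
        rintro a b ⟨ha, ha'⟩ ⟨hb, hb'⟩
        exact ⟨hm a b ha hb, by rw [mul_inv_rev]; exact hm _ _ hb' ha'⟩
      inv_mem' := by
        rintro a ⟨ha, ha'⟩
        exact ⟨ha', by rw [inv_inv]; exact ha⟩ }
  have h : strands M ≤ H := strands_le fun i hi => ⟨hs i hi, hs' i hi⟩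
  exact (h hb).1

theorem act_of_le {M : ℕ} {b : Braid} (hb : b ∈ strands M) (v : ℕ → X) {a : ℕ} (ha : M ≤ a) :
    act X b v a = v a := by
  revert v
  refine strands_induction (M := M) (P := fun b => ∀ v : ℕ → X, act X b v a = v a) ?_ ?_ ?_ ?_ hb
  · intro v; rw [act_one]
  · intro i hi v
    rw [act_sig_apply, crossFun_ne _ (by omega) (by omega)]
  · intro i hi v
    rw [act_inv_apply, crossInv_ne _ (by omega) (by omega)]
  · intro b c hb hc v
    rw [act_mul, hb, hc]

theorem act_congr {M : ℕ} {b : Braid} (hb : b ∈ strands M) {v v' : ℕ → X}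
    (h : ∀ a < M, v a = v' a) : ∀ a < M, act X b v a = act X b v' a := by
  revert v v'
  refine strands_induction (M := M)
    (P := fun b => ∀ {v v' : ℕ → X}, (∀ a < M, v a = v' a) → ∀ a < M, act X b v a = act X b v' a)
    ?_ ?_ ?_ ?_ hb
  · intro v v' h a ha
    rw [act_one, act_one]; exact h a ha
  · intro i hi v v' h a ha
    rw [act_sig_apply, act_sig_apply]
    unfold crossFun
    rw [h (i + 1) hi, h i (by omega), h a ha]
  · intro i hi v v' h a ha
    rw [act_inv_apply, act_inv_apply]
    unfold crossInv
    rw [h (i + 1) hi, h i (by omega), h a ha]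
  · intro b c hb hc v v' h a ha
    rw [act_mul, act_mul]
    exact hb (hc h) a ha

/-- A constant vector is not changed. -/
theorem act_const (b : Braid) (x : X) : act X b (fun _ => x) = fun _ => x := by
  have h0 : ∀ i, act X (sig i) (fun _ => x) = fun _ => x := by
    intro i
    rw [act_sig_apply]
    funext a
    unfold crossFun
    split_ifs <;> simp [Quandle.fix]
  induction b using braid_induction with
  | h1 => rw [act_one]
  | hs i => exact h0 i
  | hm a b ha hb => rw [act_mul, hb, ha]
  | hi a ha =>
    have := act_inv_act X a (fun _ => x)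
    rw [ha] at this
    exact this

/-! ### Colourings and fixed vectors -/

variable {X}

/-- A fixed vector gives a colouring. -/
def mkC {M : ℕ} {b : Braid} (hb : b ∈ strands M) (v : ℕ → X) (hv : act X b v = v) :
    Colouring X M b :=
  ⟨fun a => v a, by
    intro v' hv'
    funext a
    by_cases ha : a < M
    · rw [act_congr X hb (v := v') (v' := v) (fun a ha => hv' ⟨a, ha⟩) a ha, hv]
      exact (hv' ⟨a, ha⟩).symm
    · exact act_of_le X hb _ (by omega)⟩

/-- The extension of a vector. -/
def ex {M : ℕ} (x₀ : X) (u : Fin M → X) (a : ℕ) : X := if h : a < M then u ⟨a, h⟩ else x₀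

theorem ex_lt {M : ℕ} (x₀ : X) (u : Fin M → X) (a : Fin M) : ex x₀ u a = u a := by
  simp [ex]

theorem ex_ge {M : ℕ} (x₀ : X) (u : Fin M → X) {a : ℕ} (h : M ≤ a) : ex x₀ u a = x₀ := by
  simp [ex, Nat.not_lt.2 h]

theorem act_ex {M : ℕ} {b : Braid} (x₀ : X) (u : Colouring X M b) : act X b (ex x₀ u.1) = ex x₀ u.1 :=
  u.2 _ fun a => ex_lt x₀ u.1 a

/-- Fixed vectors with a prescribed value at the positions which do not matter. -/
def Fix (M : ℕ) (b : Braid) (x₀ : X) : Type _ :=
  {v : ℕ → X // act X b v = v ∧ ∀ a, M ≤ a → v a = x₀}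

def equivFix {M : ℕ} {b : Braid} (hb : b ∈ strands M) (x₀ : X) : Colouring X M b ≃ Fix M b x₀ where
  toFun u := ⟨ex x₀ u.1, act_ex x₀ u, fun _ ha => ex_ge x₀ u.1 ha⟩
  invFun v := mkC hb v.1 v.2.1
  left_inv u := by
    apply Subtype.ext
    funext a
    exact ex_lt x₀ u.1 a
  right_inv v := by
    apply Subtype.ext
    funext a
    by_cases ha : a < M
    · exact ex_lt x₀ (fun a : Fin M => v.1 a) ⟨a, ha⟩
    · rw [v.2.2 a (by omega)]
      exact ex_ge x₀ _ (by omega)

/-- Conjugation. -/
def fixConj {M : ℕ} {b g : Braid} (hg : g ∈ strands M) (x₀ : X) :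
    Fix M b x₀ ≃ Fix M (g * b * g⁻¹) x₀ where
  toFun v := ⟨act X g v.1, by
      rw [act_mul, act_mul, act_inv_act, v.2.1], fun a ha => by
      rw [act_of_le X hg _ ha, v.2.2 a ha]⟩
  invFun v := ⟨act X g⁻¹ v.1, by
      have := v.2.1
      rw [act_mul, act_mul] at this
      have h2 := congrArg (act X g⁻¹) this
      rw [act_inv_act] at h2
      exact h2, fun a ha => by
      rw [act_of_le X (inv_mem hg) _ ha, v.2.2 a ha]⟩
  left_inv v := Subtype.ext (act_inv_act X g v.1)
  right_inv v := Subtype.ext (act_act_inv X g v.1)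

theorem act_update {M : ℕ} {b : Braid} (hb : b ∈ strands M) (v : ℕ → X) {c : ℕ} (hc : M ≤ c)
    (x : X) : act X b (Function.update v c x) = Function.update (act X b v) c x := by
  funext a
  by_cases ha : a < M
  · rw [Function.update_of_ne (by omega)]
    refine act_congr X hb (fun a' ha' => ?_) a ha
    rw [Function.update_of_ne (by omega)]
  · rw [act_of_le X hb _ (by omega)]
    by_cases h : a = c
    · subst h; simp
    · rw [Function.update_of_ne h, Function.update_of_ne h, act_of_le X hb _ (by omega)]

theorem act_letter_eq (k : ℕ) (e : Bool) (p : ℕ → X) (h : p k = p (k + 1)) :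
    act X (letter k e) p = p := by
  cases e with
  | true =>
    rw [letter_true, act_sig_apply]
    funext a
    unfold crossFun
    split_ifs with h1 h2
    · rw [h1, h]
    · rw [h2, h, Quandle.fix]
    · rfl
  | false =>
    rw [letter_false, act_inv_apply]
    funext a
    unfold crossInv
    split_ifs with h1 h2
    · rw [h1, ← h, Quandle.fix_inv]
    · rw [h2, h]
    · rfl

theorem eq_of_act_letter (k : ℕ) (e : Bool) (p : ℕ → X)
    (h : act X (letter k e) p (k + 1) = p (k + 1)) : p k = p (k + 1) := by
  cases e with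
  | true =>
    rw [letter_true, act_sig_apply, crossFun_right] at h
    have h2 : p (k + 1) ◃ p k = p (k + 1) ◃ p (k + 1) := by rw [h, Quandle.fix]
    exact (Rack.left_cancel _).1 h2
  | false =>
    rw [letter_false, act_inv_apply, crossInv_right] at h
    exact h

/-- Stabilization. -/
def fixStab {k : ℕ} {x y : Braid} (e : Bool) (hx : x ∈ strands (k + 1)) (hy : y ∈ strands (k + 1))
    (x₀ : X) : Fix (k + 1) (x * y) x₀ ≃ Fix (k + 2) (x * letter k e * y) x₀ where
  toFun v := ⟨Function.update v.1 (k + 1) (act X y v.1 k), by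
      have hv := v.2.1
      rw [act_mul] at hv
      rw [act_mul, act_mul, act_update hy _ le_rfl, act_letter_eq, act_update hx _ le_rfl, hv]
      rw [Function.update_self, Function.update_of_ne (by omega)], by
      intro a ha
      rw [Function.update_of_ne (by omega), v.2.2 a (by omega)]⟩
  invFun w := ⟨Function.update w.1 (k + 1) x₀, by
      have hw := w.2.1
      rw [act_mul, act_mul] at hw
      have h1 : act X (letter k e) (act X y w.1) (k + 1) = (act X y w.1) (k + 1) := by
        rw [← act_of_le X hx (act X (letter k e) (act X y w.1)) le_rfl, hw,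
          act_of_le X hy _ le_rfl]
      have h2 := eq_of_act_letter k e _ h1
      rw [act_letter_eq k e _ h2] at hw
      rw [act_mul, act_update hy _ le_rfl, act_update hx _ le_rfl, hw], by
      intro a ha
      by_cases h : a = k + 1
      · subst h; simp
      · rw [Function.update_of_ne h, w.2.2 a (by omega)]⟩
  left_inv v := by
    apply Subtype.ext
    show Function.update (Function.update v.1 (k + 1) _) (k + 1) x₀ = v.1
    rw [Function.update_idem, Function.update_eq_self_iff]
    exact (v.2.2 (k + 1) le_rfl).symm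
  right_inv w := by
    apply Subtype.ext
    show Function.update (Function.update w.1 (k + 1) x₀) (k + 1)
      (act X y (Function.update w.1 (k + 1) x₀) k) = w.1
    have hw := w.2.1
    rw [act_mul, act_mul] at hw
    have h1 : act X (letter k e) (act X y w.1) (k + 1) = (act X y w.1) (k + 1) := by
      rw [← act_of_le X hx (act X (letter k e) (act X y w.1)) le_rfl, hw,
        act_of_le X hy _ le_rfl]
    have h2 := eq_of_act_letter k e _ h1
    rw [Function.update_idem, Function.update_eq_self_iff, act_update hy _ le_rfl,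
      Function.update_of_ne (by omega), h2, act_of_le X hy _ le_rfl]

/-- The number of colourings does not change under the moves of Markov. -/
theorem card_conj [Nonempty X] {M : ℕ} {b g : Braid} (hb : b ∈ strands M) (hg : g ∈ strands M) :
    Nat.card (Colouring X M b) = Nat.card (Colouring X M (g * b * g⁻¹)) := by
  obtain ⟨x₀⟩ := ‹Nonempty X›
  exact Nat.card_congr ((equivFix hb x₀).trans ((fixConj hg x₀).trans
    (equivFix (mul_mem (mul_mem hg hb) (inv_mem hg)) x₀).symm))

theorem card_stab [Nonempty X] {k : ℕ} {x y : Braid} (e : Bool) (hx : x ∈ strands (k + 1))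
    (hy : y ∈ strands (k + 1)) :
    Nat.card (Colouring X (k + 1) (x * y)) =
      Nat.card (Colouring X (k + 2) (x * letter k e * y)) := by
  obtain ⟨x₀⟩ := ‹Nonempty X›
  refine Nat.card_congr ((equivFix (mul_mem hx hy) x₀).trans ((fixStab e hx hy x₀).trans
    (equivFix ?_ x₀).symm))
  exact mul_mem (mul_mem (strands_mono (by omega) hx) (letter_mem_strands (by omega) _))
    (strands_mono (by omega) hy)

variable (X)

/-- The number of colourings of a link by the quandle `X`. -/
noncomputable def colourings [Nonempty X] {m : ℕ} : Link m → ℕ :=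
  Quot.lift (fun D => Nat.card (Colouring X D.M D.b)) (by
    rintro ⟨M, b, hb, ell, hn⟩ ⟨M', b', hb', ell', hn'⟩ h
    cases h with
    | conj g hg hM hbg _ =>
      simp only at hM hbg
      subst hM hbg
      exact card_conj hb hg
    | stab k x y e hx hy hD hE hxy hxy' _ =>
      simp only at hD hE hxy hxy'
      subst hD hE hxy hxy'
      exact card_stab e hx hy)

end Pool.Agent.KS6_65.QC
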