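import Pool.Agent.KS6_65.QC.Sum

/-!
# Colourings of connected sums of knots with a prescribed colour at the base point

The colourings of two knots with the same colour at the base point are glued to a colouring of the
connected sum. So the number of colourings with a given colour at the base point is at least
multiplicative under connected sum.
-/

set_option autoImplicit false
set_option linter.unusedSectionVars false

namespace Pool.Agent.KS6_65.QC

open Pool.Agent.KS6_65.SL
open scoped Quandles
open FreeAbelianGroup (of)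

variable {X : Type*} [Quandle X]

/-- The colours after insertion of `z` strands of the colours `c 0, ..., c (z - 1)` at the positions
`m, ..., m + z - 1`. -/
def wideW (m : ℕ) (c : ℕ → X) : ℕ → (ℕ → X) → (ℕ → X)
  | 0, v => v
  | z + 1, v => insV (m + z) (c z) (wideW m c z v)

theorem act_wideW (m : ℕ) (c : ℕ → X) (z : ℕ) (b : Braid) (v : ℕ → X) :
    act X (wide m z b) (wideW m c z v) = wideW m c z (act X b v) := by
  induction z with
  | zero => rfl
  | succ z ih =>
    rw [wide_succ]
    show act X (ins (m + z) (wide m z b)) (insV (m + z) (c z) (wideW m c z v)) = _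
    rw [act_ins, ih]
    rfl

theorem wideW_lt {m a : ℕ} (h : a < m) (c : ℕ → X) (z : ℕ) (v : ℕ → X) :
    wideW m c z v a = v a := by
  induction z with
  | zero => rfl
  | succ z ih =>
    show insV (m + z) (c z) (wideW m c z v) a = _
    rw [insV_lt _ _ (by omega), ih]

theorem wideW_mid {m a z : ℕ} (h : m ≤ a) (h' : a < m + z) (c : ℕ → X) (v : ℕ → X) :
    wideW m c z v a = c (a - m) := by
  induction z with
  | zero => omega
  | succ z ih =>
    show insV (m + z) (c z) (wideW m c z v) a = _
    by_cases h1 : a = m + z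
    · subst h1
      rw [insV_eq, Nat.add_sub_cancel_left]
    · rw [insV_lt _ _ (by omega), ih (by omega)]

theorem wideW_inj {m M z : ℕ} (hm : m ≤ M) {c : ℕ → X} {v v' : ℕ → X}
    (h : ∀ a < M + z, wideW m c z v a = wideW m c z v' a) : ∀ a < M, v a = v' a := by
  induction z with
  | zero => exact h
  | succ z ih =>
    apply ih
    intro a ha
    have h' : ∀ a < M + (z + 1), insV (m + z) (c z) (wideW m c z v) a =
      insV (m + z) (c z) (wideW m c z v') a := h
    by_cases h1 : a < m + z
    · have := h' a (by omega)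
      rwa [insV_lt _ _ h1, insV_lt _ _ h1] at this
    · have := h' (a + 1) (by omega)
      rw [insV_gt _ _ (by omega), insV_gt _ _ (by omega)] at this
      exact (Rack.left_cancel _).1 this

/-- Colourings with a prescribed colour at the base point (the position `0`). -/
def BC (M : ℕ) (b : Braid) (x₀ c : X) : Type _ := {u : Colouring X M b // ex x₀ u.1 0 = c}

instance {M : ℕ} {b : Braid} {x₀ c : X} [Finite X] : Finite (BC M b x₀ c) := by
  unfold BC
  infer_instance

/-- The colours of the connected sum which are given by colourings of the summands. -/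
def glueV (z : ℕ) (v w : ℕ → X) : ℕ → X := wideW 1 (fun j => w (1 + j)) z v

theorem glueV_lt {z a : ℕ} {v w : ℕ → X} (h0 : v 0 = w 0) (ha : a < 1 + z) :
    glueV z v w a = w a := by
  unfold glueV
  rcases Nat.eq_zero_or_pos a with h | h
  · subst h; rw [wideW_lt (by omega), h0]
  · rw [wideW_mid h ha]
    show w (1 + (a - 1)) = w a
    congr 1
    omega

theorem act_glue {z : ℕ} {b k : Braid} (hk : k ∈ strands (1 + z)) {v w : ℕ → X} (h0 : v 0 = w 0)
    (hv : act X b v = v) (hw : act X k w = w) :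
    act X (wide 1 z b * k) (glueV z v w) = glueV z v w := by
  have h1 : act X k (glueV z v w) = glueV z v w := by
    funext a
    by_cases ha : a < 1 + z
    · rw [act_congr X hk (v' := w) (fun a ha => glueV_lt h0 ha) a ha, hw, glueV_lt h0 ha]
    · exact act_of_le X hk _ (by omega)
  rw [act_mul, h1]
  unfold glueV
  rw [act_wideW, hv]

/-- Two colourings with the same colour at the base point are glued to a colouring of the connected
sum. -/
noncomputable def glueC {M z : ℕ} (hM : 1 ≤ M) {b k : Braid} (hb : b ∈ strands M)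
    (hk : k ∈ strands (1 + z)) (x₀ c : X) (u : BC M b x₀ c × BC (1 + z) k x₀ c) :
    BC (M + z) (wide 1 z b * k) x₀ c :=
  ⟨mkC (v := glueV z (ex x₀ u.1.1.1) (ex x₀ u.2.1.1))
    (mul_mem (wide_mem hM hb) (strands_mono (by omega) hk))
    (act_glue hk (u.1.2.trans u.2.2.symm) (act_ex x₀ u.1.1) (act_ex x₀ u.2.1)), by
    have h0 : (ex x₀ u.1.1.1) 0 = (ex x₀ u.2.1.1) 0 := u.1.2.trans u.2.2.symm
    have h1 := ex_lt x₀ (mkC (v := glueV z (ex x₀ u.1.1.1) (ex x₀ u.2.1.1))
      (mul_mem (wide_mem hM hb) (strands_mono (by omega) hk))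
      (act_glue hk h0 (act_ex x₀ u.1.1) (act_ex x₀ u.2.1))).1 (⟨0, by omega⟩ : Fin (M + z))
    refine h1.trans ?_
    show glueV z (ex x₀ u.1.1.1) (ex x₀ u.2.1.1) 0 = c
    rw [glueV_lt h0 (by omega)]
    exact u.2.2⟩

theorem glueC_injective {M z : ℕ} (hM : 1 ≤ M) {b k : Braid} (hb : b ∈ strands M)
    (hk : k ∈ strands (1 + z)) (x₀ c : X) :
    Function.Injective (glueC (X := X) hM hb hk x₀ c) := by
  rintro ⟨⟨u, hu⟩, ⟨w, hw⟩⟩ ⟨⟨u', hu'⟩, ⟨w', hw'⟩⟩ h
  have h1 : ∀ a : Fin (M + z), glueV z (ex x₀ u.1) (ex x₀ w.1) a =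
      glueV z (ex x₀ u'.1) (ex x₀ w'.1) a :=
    fun a => congrFun (congrArg Subtype.val (congrArg Subtype.val h)) a
  have h2 : w = w' := by
    apply Subtype.ext
    funext a
    rw [← ex_lt x₀ w.1 a, ← ex_lt x₀ w'.1 a]
    have h3 := h1 ⟨a, by omega⟩
    rwa [glueV_lt (hu.trans hw.symm) a.2, glueV_lt (hu'.trans hw'.symm) a.2] at h3
  subst h2
  have h4 : u = u' := by
    apply Subtype.ext
    funext a
    rw [← ex_lt x₀ u.1 a, ← ex_lt x₀ u'.1 a]
    exact wideW_inj hM (fun a ha => h1 ⟨a, ha⟩) a a.2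
  subst h4
  rfl

/-- The knot `closure s` has at least `N` colourings with the colour `c` at the base point, in some
diagram. -/
def Many (s : StringLink 1) (N : ℕ) (c : X) : Prop :=
  ∃ M b, 1 ≤ M ∧ b ∈ strands M ∧ T0 1 M b = of s ∧ N ≤ Nat.card (BC M b c c)

theorem Many.mul [Finite X] {s t : StringLink 1} {N N' : ℕ} {c : X} (h : Many s N c)
    (h' : Many t N' c) : Many (s * t) (N * N') c := by
  obtain ⟨M, b, hM, hb, hT, hN⟩ := h
  obtain ⟨L, k, hL, hk, hT', hN'⟩ := h'
  obtain ⟨z, rfl⟩ : ∃ z, L = 1 + z := ⟨L - 1, by omega⟩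
  refine ⟨M + z, wide 1 z b * k, by omega, (T0_eq_of (mul_spec hT hT')).1, mul_spec hT hT', ?_⟩
  refine le_trans (Nat.mul_le_mul hN hN') ?_
  rw [← Nat.card_prod]
  exact Nat.card_le_card_of_injective _ (glueC_injective hM hb hk c c)

theorem Many.triv [Finite X] (s : StringLink 1) (c : X) : Many s 1 c := by
  obtain ⟨M, b, hb, hs, hT⟩ := exists_rep s
  refine ⟨M, b, hs.1, hb, hT, ?_⟩
  have h1 : ex c (mkC hb (fun _ => c) (act_const X b c)).1 0 = c := by
    rcases Nat.lt_or_ge 0 M with h | h
    · exact ex_lt c (mkC hb (fun _ => c) (act_const X b c)).1 ⟨0, h⟩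
    · exact ex_ge c _ h
  have : Nonempty (BC M b c c) := ⟨⟨mkC hb (fun _ => c) (act_const X b c), h1⟩⟩
  exact Nat.card_pos

theorem Many.pow [Finite X] {s : StringLink 1} {N : ℕ} {c : X} (h : Many s N c) (m : ℕ) :
    Many (s ^ m) (N ^ m) c := by
  induction m with
  | zero => rw [pow_zero, pow_zero]; exact Many.triv 1 c
  | succ m ih => rw [pow_succ, pow_succ]; exact ih.mul h

theorem Many.le [Finite X] [Nonempty X] {s : StringLink 1} {N : ℕ} {c : X} (h : Many s N c) :
    N ≤ colourings X (closure s) := by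
  obtain ⟨M, b, hM, hb, hT, hN⟩ := h
  rw [colourings_closure hT]
  exact hN.trans (Nat.card_le_card_of_injective
    (fun u : BC M b c c => (u.1 : Colouring X M b)) Subtype.val_injective)

/-- If a knot has more than `Nat.card X` colourings, then two of them have the same colour at the
base point. -/
theorem exists_many [Finite X] [Nonempty X] {s : StringLink 1}
    (h : Nat.card X < colourings X (closure s)) : ∃ c : X, Many s 2 c := by
  obtain ⟨M, b, hb, hs, hT⟩ := exists_rep s
  rw [colourings_closure hT] at h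
  have hM : 1 ≤ M := hs.1
  have h1 : ¬ Function.Injective (fun u : Colouring X M b => u.1 ⟨0, hM⟩) := by
    intro hi
    exact absurd (Nat.card_le_card_of_injective _ hi) (not_le.2 h)
  unfold Function.Injective at h1
  push Not at h1
  obtain ⟨u, u', he, hne⟩ := h1
  refine ⟨u.1 ⟨0, hM⟩, M, b, hM, hb, hT, ?_⟩
  have hu : ex (u.1 ⟨0, hM⟩) u.1 0 = u.1 ⟨0, hM⟩ := ex_lt _ u.1 ⟨0, hM⟩
  have hu' : ex (u.1 ⟨0, hM⟩) u'.1 0 = u.1 ⟨0, hM⟩ := (ex_lt _ u'.1 ⟨0, hM⟩).trans he.symm
  have h2 : Function.Injective (fun i : Fin 2 =>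
      (if i = 0 then ⟨u, hu⟩ else ⟨u', hu'⟩ : BC M b (u.1 ⟨0, hM⟩) (u.1 ⟨0, hM⟩))) := by
    intro i j hij
    fin_cases i <;> fin_cases j
    · rfl
    · exact absurd (congrArg Subtype.val hij) hne
    · exact absurd (congrArg Subtype.val hij).symm hne
    · rfl
  have h3 := Nat.card_le_card_of_injective _ h2
  rwa [Nat.card_fin] at h3

end Pool.Agent.KS6_65.QC
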